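import Pool.Agent.Q48.FS.Main
import Pool.Agent.Q48.FS.Low

set_option autoImplicit false

/-! # Four squares: the coordinates and the pair `p`, `p - 2` without small prime factors -/

namespace Pool.Agent.Q20.FQ

open Finset
open Pool.Agent.W65.FS Pool.Agent.Q48.FS

open Classical in
/-- the solutions modulo `l` with a coordinate divisible by `l`, or with `l` dividing `p` or `p - 2` -/
noncomputable def BC (n l : ℕ) : Finset (Fin 4 → ℤ) :=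
  (Gl n l).filter fun c => (∃ i, (l : ℤ) ∣ c i) ∨ (l : ℤ) ∣ pf c ∨ (l : ℤ) ∣ pf c - 2

lemma mem_BC {n l : ℕ} {c : Fin 4 → ℤ} : c ∈ BC n l ↔ c ∈ Gl n l ∧ ((∃ i, (l : ℤ) ∣ c i) ∨ (l : ℤ) ∣ pf c ∨ (l : ℤ) ∣ pf c - 2) := by
  classical
  unfold BC
  rw [mem_filter]

lemma sum_swap (c : Fin 4 → ℤ) (j : Fin 4) :
    ∑ i, c i ^ 2 = c (Equiv.swap 0 j 0) ^ 2 + c (Equiv.swap 0 j 1) ^ 2 + c (Equiv.swap 0 j 2) ^ 2 + c (Equiv.swap 0 j 3) ^ 2 := by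
  rw [← Equiv.sum_comp (Equiv.swap 0 j) (fun i => c i ^ 2), Fin.sum_univ_four]

lemma coord_card (l : ℕ) (hl : l.Prime) (n : ℕ) (j : Fin 4) (B : Finset (Fin 4 → ℤ))
    (hB : ∀ c ∈ B, c ∈ Gl n l ∧ (l : ℤ) ∣ c j) : B.card ≤ 2 * l ^ 2 := by
  classical
  obtain ⟨σ, hσ⟩ : ∃ σ : Equiv.Perm (Fin 4), σ = Equiv.swap 0 j := ⟨_, rfl⟩
  have hσ0 : σ 0 = j := by rw [hσ, Equiv.swap_apply_left]
  have hcard : ((Finset.Ico (0 : ℤ) l) ×ˢ (Finset.Ico (0 : ℤ) l)).card = l ^ 2 := by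
    rw [Finset.card_product]; simp; ring
  rw [← hcard]
  have hrange : ∀ c ∈ B, ∀ i, 0 ≤ c i ∧ c i < l := fun c hc => ((mem_Gl n l c).1 (hB c hc).1).1
  have hzero : ∀ c ∈ B, c (σ 0) = 0 := by
    intro c hc
    rw [hσ0]
    exact Int.eq_zero_of_dvd_of_nonneg_of_lt (hrange c hc j).1 (hrange c hc j).2 (hB c hc).2
  apply Finset.card_le_mul_card_image_of_maps_to (f := fun c : Fin 4 → ℤ => (c (σ 1), c (σ 2)))
  · intro c hc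
    rw [Finset.mem_product, Finset.mem_Ico, Finset.mem_Ico]
    exact ⟨hrange c hc _, hrange c hc _⟩
  · intro r _
    have hinj : Set.InjOn (fun c : Fin 4 → ℤ => c (σ 3)) (B.filter (fun c => (c (σ 1), c (σ 2)) = r) : Finset (Fin 4 → ℤ)) := by
      intro c hc d hd hcd
      rw [mem_coe, mem_filter] at hc hd
      have h1 : (c (σ 1), c (σ 2)) = (d (σ 1), d (σ 2)) := by rw [hc.2, hd.2]
      simp only [Prod.mk.injEq] at h1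
      have h2 : ∀ i : Fin 4, c (σ i) = d (σ i) := by
        intro i
        fin_cases i
        · show c (σ 0) = d (σ 0)
          rw [hzero c hc.1, hzero d hd.1]
        · exact h1.1
        · exact h1.2
        · exact hcd
      funext i
      have := h2 (σ.symm i)
      rwa [σ.apply_symm_apply] at this
    rw [← card_image_of_injOn hinj]
    apply card_sq l hl _ _ ((n : ℤ) - r.1 ^ 2 - r.2 ^ 2)
    · intro t ht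
      obtain ⟨c, hc, rfl⟩ := mem_image.1 ht
      rw [mem_filter] at hc
      have h1 := ((mem_Gl n l c).1 (hB c hc.1).1).2.1
      rw [sum_swap c j, ← hσ, hzero c hc.1] at h1
      have h2 : c (σ 1) = r.1 := by rw [← hc.2]
      have h3 : c (σ 2) = r.2 := by rw [← hc.2]
      rw [h2, h3] at h1
      have e : (0 : ℤ) ^ 2 + r.1 ^ 2 + r.2 ^ 2 + c (σ 3) ^ 2 - n = c (σ 3) ^ 2 - ((n : ℤ) - r.1 ^ 2 - r.2 ^ 2) := by ring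
      rwa [e] at h1
    · intro t ht
      obtain ⟨c, hc, rfl⟩ := mem_image.1 ht
      rw [mem_filter] at hc
      exact hrange c hc.1 _

lemma BC_card (l : ℕ) (hl : l.Prime) (hl2 : l ≠ 2) (n : ℕ) : (BC n l).card ≤ 16 * l ^ 2 := by
  classical
  have hsub : BC n l ⊆ ((univ : Finset (Fin 4)).biUnion (fun j => (Gl n l).filter (fun c => (l : ℤ) ∣ c j))) ∪
      ((Gl n l).filter (fun c => (l : ℤ) ∣ pf c - 0) ∪ (Gl n l).filter (fun c => (l : ℤ) ∣ pf c - 2)) := by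
    intro c hc
    rw [mem_BC] at hc
    rw [mem_union, mem_union, mem_biUnion, mem_filter, mem_filter]
    rcases hc.2 with ⟨i, h⟩ | h | h
    · left
      exact ⟨i, mem_univ _, mem_filter.2 ⟨hc.1, h⟩⟩
    · right; left
      exact ⟨hc.1, by rwa [sub_zero]⟩
    · right; right
      exact ⟨hc.1, h⟩
  have h1 := bad_tau l hl hl2 n 0 ((Gl n l).filter (fun c => (l : ℤ) ∣ pf c - 0)) (fun c hc => mem_filter.1 hc)
  have h2 := bad_tau l hl hl2 n 2 ((Gl n l).filter (fun c => (l : ℤ) ∣ pf c - 2)) (fun c hc => mem_filter.1 hc)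
  have h3 : ((univ : Finset (Fin 4)).biUnion (fun j => (Gl n l).filter (fun c => (l : ℤ) ∣ c j))).card ≤ 8 * l ^ 2 := by
    refine card_biUnion_le.trans ?_
    refine (sum_le_sum fun j _ => coord_card l hl n j _ (fun c hc => mem_filter.1 hc)).trans ?_
    rw [sum_const, card_univ, Fintype.card_fin, smul_eq_mul]
    apply le_of_eq
    ring
  calc (BC n l).card ≤ _ := card_le_card hsub
    _ ≤ _ + _ := card_union_le _ _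
    _ ≤ _ + (_ + _) := Nat.add_le_add_left (card_union_le _ _) _
    _ ≤ 8 * l ^ 2 + (4 * l ^ 2 + 4 * l ^ 2) := Nat.add_le_add h3 (Nat.add_le_add h1 h2)
    _ = _ := by ring

/-- conversion of a small witness -/
lemma witnessC (l n : ℕ) (x y z w : ℕ) (hx : x < l ∧ x ≠ 0) (hy : y < l ∧ y ≠ 0) (hz : z < l ∧ z ≠ 0) (hw : w < l ∧ w ≠ 0)
    (h1 : (x ^ 2 + y ^ 2 + z ^ 2 + w ^ 2) % l = n % l)
    (h3 : (x ^ 2 + 3 * y ^ 2 + 5 * z ^ 2 + 7 * w ^ 2) % l ≠ 0) (h4 : (x ^ 2 + 3 * y ^ 2 + 5 * z ^ 2 + 7 * w ^ 2) % l ≠ 2 % l) :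
    ∃ c ∈ Gl n l, c ∉ BC n l := by
  have hnd : ∀ t : ℕ, t < l ∧ t ≠ 0 → ¬ (l : ℤ) ∣ (t : ℤ) := by
    intro t ht h
    have : l ∣ t := by exact_mod_cast h
    exact absurd (Nat.le_of_dvd (Nat.pos_of_ne_zero ht.2) this) (by omega)
  refine ⟨![(x : ℤ), y, z, w], ?_, ?_⟩
  · rw [mem_Gl]
    refine ⟨?_, ?_, 0, hnd x hx⟩
    · intro i
      fin_cases i
      · exact ⟨Int.natCast_nonneg _, Int.ofNat_lt.2 hx.1⟩
      · exact ⟨Int.natCast_nonneg _, Int.ofNat_lt.2 hy.1⟩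
      · exact ⟨Int.natCast_nonneg _, Int.ofNat_lt.2 hz.1⟩
      · exact ⟨Int.natCast_nonneg _, Int.ofNat_lt.2 hw.1⟩
    · rw [Fin.sum_univ_four]
      show (l : ℤ) ∣ (x : ℤ) ^ 2 + (y : ℤ) ^ 2 + (z : ℤ) ^ 2 + (w : ℤ) ^ 2 - n
      have h5 : (n : ℕ) ≡ x ^ 2 + y ^ 2 + z ^ 2 + w ^ 2 [MOD l] := h1.symm
      have h6 := (Nat.modEq_iff_dvd.1 h5)
      push_cast at h6
      exact h6
  · rw [mem_BC]
    rintro ⟨-, h | h | h⟩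
    · obtain ⟨i, hi⟩ := h
      fin_cases i
      · exact hnd x hx hi
      · exact hnd y hy hi
      · exact hnd z hz hi
      · exact hnd w hw hi
    · apply h3
      have h5 : (l : ℤ) ∣ ((x ^ 2 + 3 * y ^ 2 + 5 * z ^ 2 + 7 * w ^ 2 : ℕ) : ℤ) := by
        push_cast
        exact h
      exact Nat.mod_eq_zero_of_dvd (by exact_mod_cast h5)
    · apply h4
      have h5 : (2 : ℕ) ≡ x ^ 2 + 3 * y ^ 2 + 5 * z ^ 2 + 7 * w ^ 2 [MOD l] := by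
        rw [Nat.modEq_iff_dvd]
        push_cast
        exact h
      exact h5.symm

lemma c5 : ∀ n : Fin 5, ∃ x y z w : Fin 5, x.1 ≠ 0 ∧ y.1 ≠ 0 ∧ z.1 ≠ 0 ∧ w.1 ≠ 0 ∧ (x.1 ^ 2 + y.1 ^ 2 + z.1 ^ 2 + w.1 ^ 2) % 5 = n.1 ∧
    (x.1 ^ 2 + 3 * y.1 ^ 2 + 5 * z.1 ^ 2 + 7 * w.1 ^ 2) % 5 ≠ 0 ∧ (x.1 ^ 2 + 3 * y.1 ^ 2 + 5 * z.1 ^ 2 + 7 * w.1 ^ 2) % 5 ≠ 2 % 5 := by
  decide

lemma c7 : ∀ n : Fin 7, ∃ x y z w : Fin 7, x.1 ≠ 0 ∧ y.1 ≠ 0 ∧ z.1 ≠ 0 ∧ w.1 ≠ 0 ∧ (x.1 ^ 2 + y.1 ^ 2 + z.1 ^ 2 + w.1 ^ 2) % 7 = n.1 ∧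
    (x.1 ^ 2 + 3 * y.1 ^ 2 + 5 * z.1 ^ 2 + 7 * w.1 ^ 2) % 7 ≠ 0 ∧ (x.1 ^ 2 + 3 * y.1 ^ 2 + 5 * z.1 ^ 2 + 7 * w.1 ^ 2) % 7 ≠ 2 % 7 := by
  decide

set_option maxRecDepth 100000 in
lemma c11 : ∀ n : Fin 11, ∃ x y z w : Fin 11, x.1 ≠ 0 ∧ y.1 ≠ 0 ∧ z.1 ≠ 0 ∧ w.1 ≠ 0 ∧ (x.1 ^ 2 + y.1 ^ 2 + z.1 ^ 2 + w.1 ^ 2) % 11 = n.1 ∧
    (x.1 ^ 2 + 3 * y.1 ^ 2 + 5 * z.1 ^ 2 + 7 * w.1 ^ 2) % 11 ≠ 0 ∧ (x.1 ^ 2 + 3 * y.1 ^ 2 + 5 * z.1 ^ 2 + 7 * w.1 ^ 2) % 11 ≠ 2 % 11 := by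
  decide

set_option maxRecDepth 100000 in
lemma c13 : ∀ n : Fin 13, ∃ x y z w : Fin 13, x.1 ≠ 0 ∧ y.1 ≠ 0 ∧ z.1 ≠ 0 ∧ w.1 ≠ 0 ∧ (x.1 ^ 2 + y.1 ^ 2 + z.1 ^ 2 + w.1 ^ 2) % 13 = n.1 ∧
    (x.1 ^ 2 + 3 * y.1 ^ 2 + 5 * z.1 ^ 2 + 7 * w.1 ^ 2) % 13 ≠ 0 ∧ (x.1 ^ 2 + 3 * y.1 ^ 2 + 5 * z.1 ^ 2 + 7 * w.1 ^ 2) % 13 ≠ 2 % 13 := by
  decide

/-- local solvability -/
lemma local_BC (l : ℕ) (hl : l.Prime) (hl2 : l ≠ 2) (n : ℕ) (h3 : l = 3 → n % 3 = 1) : ∃ c ∈ Gl n l, c ∉ BC n l := by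
  classical
  by_cases hbig : 17 ≤ l
  · by_contra h
    push Not at h
    have h1 : Gl n l ⊆ BC n l := fun c hc => h c hc
    have h2 := (card_le_card h1).trans (BC_card l hl hl2 n)
    have h3 := count_lower l hl hl2 n
    have h4 : ((Gl n l).card : ℝ) ≤ 16 * (l : ℝ) ^ 2 := by exact_mod_cast h2
    have h5 : (17 : ℝ) ≤ l := by exact_mod_cast hbig
    nlinarith [mul_pos (show (0:ℝ) < l by linarith) (show (0:ℝ) < l by linarith)]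
  · have hcases : l = 3 ∨ l = 5 ∨ l = 7 ∨ l = 11 ∨ l = 13 := by
      have := hl.two_le
      have h11 : l < 17 := by omega
      interval_cases l <;> first | omega | (exfalso; revert hl; decide)
    rcases hcases with rfl | rfl | rfl | rfl | rfl
    · exact witnessC 3 n 1 1 1 1 (by norm_num) (by norm_num) (by norm_num) (by norm_num) (by rw [h3 rfl]; rfl) (by norm_num) (by norm_num)
    · obtain ⟨x, y, z, w, a1, a2, a3, a4, h1, h2, h3⟩ := c5 ⟨n % 5, Nat.mod_lt _ (by norm_num)⟩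
      exact witnessC 5 n x y z w ⟨x.2, a1⟩ ⟨y.2, a2⟩ ⟨z.2, a3⟩ ⟨w.2, a4⟩ h1 h2 h3
    · obtain ⟨x, y, z, w, a1, a2, a3, a4, h1, h2, h3⟩ := c7 ⟨n % 7, Nat.mod_lt _ (by norm_num)⟩
      exact witnessC 7 n x y z w ⟨x.2, a1⟩ ⟨y.2, a2⟩ ⟨z.2, a3⟩ ⟨w.2, a4⟩ h1 h2 h3
    · obtain ⟨x, y, z, w, a1, a2, a3, a4, h1, h2, h3⟩ := c11 ⟨n % 11, Nat.mod_lt _ (by norm_num)⟩
      exact witnessC 11 n x y z w ⟨x.2, a1⟩ ⟨y.2, a2⟩ ⟨z.2, a3⟩ ⟨w.2, a4⟩ h1 h2 h3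
    · obtain ⟨x, y, z, w, a1, a2, a3, a4, h1, h2, h3⟩ := c13 ⟨n % 13, Nat.mod_lt _ (by norm_num)⟩
      exact witnessC 13 n x y z w ⟨x.2, a1⟩ ⟨y.2, a2⟩ ⟨z.2, a3⟩ ⟨w.2, a4⟩ h1 h2 h3

/-- **the fundamental lemma for the coordinates and the pair** -/
theorem coordMain (ε : ℝ) (hε : 0 < ε) : ∃ δ : ℝ, 0 < δ ∧ ∃ n₀ : ℕ, ∀ n M z : ℕ, Odd n → n₀ ≤ n → 0 < M → Odd M →
    Squarefree M → (3 ∣ M ∨ n % 3 = 1) → (M : ℝ) ≤ (n : ℝ) ^ δ → (z : ℝ) ≤ (n : ℝ) ^ δ → ∀ v : Fin 4 → ℤ, Good n M v →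
    0 < Vd n M z (BC n) ∧ (n : ℝ) ^ (9 / 10 : ℝ) ≤ (prc n M v).card * Vd n M z (BC n) ∧
    |((sift n M v z (BC n)).card : ℝ) - (prc n M v).card * Vd n M z (BC n)| ≤ ε * ((prc n M v).card * Vd n M z (BC n)) := by
  obtain ⟨δ1, hδ1, n1, hf⟩ := fund 16 ε hε
  obtain ⟨δ2, hδ2, n2, hfl⟩ := fund_lower 16
  obtain ⟨δ, hδ⟩ : ∃ δ : ℝ, δ = min δ1 δ2 := ⟨_, rfl⟩
  have hδ0 : 0 < δ := by rw [hδ]; positivity
  have hδ1' : δ ≤ δ1 := by rw [hδ]; exact min_le_left _ _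
  have hδ2' : δ ≤ δ2 := by rw [hδ]; exact min_le_right _ _
  refine ⟨δ, hδ0, n1 + n2 + 1, ?_⟩
  intro n M z hn hn0 hM0 hMo hMs h3 hM hz v hv
  have hn1 : (1 : ℝ) ≤ n := by exact_mod_cast hn.pos
  have hr1 : (n : ℝ) ^ δ ≤ (n : ℝ) ^ δ1 := Real.rpow_le_rpow_of_exponent_le hn1 hδ1'
  have hr2 : (n : ℝ) ^ δ ≤ (n : ℝ) ^ δ2 := Real.rpow_le_rpow_of_exponent_le hn1 hδ2'
  have hB : ∀ l ∈ Pr M z, BC n l ⊆ Gl n l ∧ (BC n l).card ≤ 16 * l ^ 2 := by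
    intro l hl
    rw [mem_Pr] at hl
    exact ⟨fun c hc => (mem_BC.1 hc).1, BC_card l hl.2.1 (by omega) n⟩
  have hloc : ∀ l ∈ Pr M z, ∃ c ∈ Gl n l, c ∉ BC n l := by
    intro l hl
    rw [mem_Pr] at hl
    refine local_BC l hl.2.1 (by omega) n ?_
    intro h
    subst h
    rcases h3 with h | h
    · exact absurd h hl.2.2
    · exact h
  have hBne : ∀ l ∈ Pr M z, BC n l ≠ Gl n l := by
    intro l hl h
    obtain ⟨c, hc1, hc2⟩ := hloc l hl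
    rw [h] at hc2
    exact hc2 hc1
  refine ⟨?_, ?_, ?_⟩
  · unfold Vd
    apply prod_pos
    intro l hl
    have hl' := hl
    rw [mem_Pr] at hl'
    have h1 := Gl_pos n l hl'.2.1 (by omega)
    rw [sub_pos, div_lt_one h1]
    obtain ⟨c, hc, hc2⟩ := hloc l hl
    have h2 : (BC n l).card < (Gl n l).card :=
      card_lt_card ((Finset.ssubset_iff_of_subset (hB l hl).1).2 ⟨c, hc, hc2⟩)
    exact_mod_cast h2
  · exact hfl n M z hn (by omega) hM0 hMo hMs (hM.trans hr2) (hz.trans hr2) v hv (BC n) hB hBne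
  · exact (hf n M z hn (by omega) hM0 hMo hMs (hM.trans hr1) (hz.trans hr1) v hv).2.2 (BC n) hB

end Pool.Agent.Q20.FQ
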