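import Mathlib

set_option autoImplicit false

/-! # Local solvability: every pair of values of the two quadratic forms is attained modulo an odd prime -/

namespace Pool.Agent.Q20.FQ

open Finset

section field

variable {F : Type} [Field F] [Fintype F] [DecidableEq F]

/-- the sum of the quadratic character over the values of `x² + c` -/
lemma sum_sq_add (hF : ringChar F ≠ 2) (c : F) (hc : c ≠ 0) : ∑ x : F, quadraticChar F (x ^ 2 + c) = -1 := by
  have h2 : (2 : F) ≠ 0 := Ring.two_ne_zero hF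
  have h1 : ∀ t : F, quadraticChar F t + 1 = ∑ y : F, if y ^ 2 = t then (1 : ℤ) else 0 := by
    intro t
    rw [← quadraticChar_card_sqrts hF t, Finset.sum_boole]
    congr 2
    ext y
    simp
  let e : F × F ≃ F × F :=
    { toFun := fun p => (p.2 - p.1, p.2 + p.1)
      invFun := fun p => ((p.2 - p.1) / 2, (p.2 + p.1) / 2)
      left_inv := by
        rintro ⟨x, y⟩
        simp only [Prod.mk.injEq]
        constructor <;> field_simp <;> ring
      right_inv := by
        rintro ⟨x, y⟩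
        simp only [Prod.mk.injEq]
        constructor <;> field_simp <;> ring }
  have h3 : ∑ x : F, (quadraticChar F (x ^ 2 + c) + 1) = (Fintype.card F : ℤ) - 1 := by
    have e1 : ∑ x : F, (quadraticChar F (x ^ 2 + c) + 1) =
        ∑ p : F × F, if p.2 ^ 2 = p.1 ^ 2 + c then (1 : ℤ) else 0 := by
      rw [Fintype.sum_prod_type]
      exact Finset.sum_congr rfl fun x _ => h1 _
    have e2 : ∑ p : F × F, (if p.2 ^ 2 = p.1 ^ 2 + c then (1 : ℤ) else 0) =
        ∑ p : F × F, if p.1 * p.2 = c then (1 : ℤ) else 0 := by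
      rw [← Equiv.sum_comp e (fun p : F × F => if p.1 * p.2 = c then (1 : ℤ) else 0)]
      refine Finset.sum_congr rfl fun p _ => ?_
      have : (p.2 ^ 2 = p.1 ^ 2 + c) ↔ ((e p).1 * (e p).2 = c) := by
        show _ ↔ ((p.2 - p.1) * (p.2 + p.1) = c)
        constructor
        · intro h
          linear_combination h
        · intro h
          linear_combination h
      simp only [this]
    have e3 : ∑ p : F × F, (if p.1 * p.2 = c then (1 : ℤ) else 0) = (Fintype.card F : ℤ) - 1 := by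
      rw [Fintype.sum_prod_type, ← Finset.add_sum_erase _ _ (mem_univ (0 : F))]
      have g1 : ∑ t : F, (if (0 : F) * t = c then (1 : ℤ) else 0) = 0 := by
        apply Finset.sum_eq_zero
        intro t _
        rw [zero_mul, if_neg (Ne.symm hc)]
      have g2 : ∀ s ∈ univ.erase (0 : F), ∑ t : F, (if s * t = c then (1 : ℤ) else 0) = 1 := by
        intro s hs
        have hs0 := ne_of_mem_erase hs
        rw [Finset.sum_eq_single (c / s)]
        · rw [if_pos (mul_div_cancel₀ c hs0)]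
        · intro t _ ht
          rw [if_neg]
          intro h
          apply ht
          rw [← h, mul_div_cancel_left₀ t hs0]
        · intro h
          exact absurd (mem_univ _) h
      show (∑ t : F, (if (0 : F) * t = c then (1 : ℤ) else 0)) + _ = _
      rw [g1, zero_add, Finset.sum_congr rfl g2, Finset.sum_const, card_erase_of_mem (mem_univ _), card_univ]
      have := Fintype.card_pos (α := F)
      rw [nsmul_eq_mul, mul_one, Nat.cast_sub this, Nat.cast_one]
    rw [e1, e2, e3]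
  rw [Finset.sum_add_distrib, Finset.sum_const, card_univ, nsmul_eq_mul, mul_one] at h3
  linarith

lemma sum_quad (hF : ringChar F ≠ 2) (a c : F) (ha : a ≠ 0) (hc : c ≠ 0) :
    ∑ x : F, quadraticChar F (a * x ^ 2 + c) = -quadraticChar F a := by
  have h1 : ∀ x : F, quadraticChar F (a * x ^ 2 + c) = quadraticChar F a * quadraticChar F (x ^ 2 + c / a) := by
    intro x
    rw [← map_mul]
    congr 1
    field_simp
  rw [Finset.sum_congr rfl fun x _ => h1 x, ← Finset.mul_sum, sum_sq_add hF _ (div_ne_zero hc ha)]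
  ring

lemma qc_le (x : F) : quadraticChar F x ≤ 1 := by
  rcases eq_or_ne x 0 with h | h
  · rw [h, quadraticChar_zero]
    norm_num
  · rcases quadraticChar_dichotomy h with h1 | h1 <;> rw [h1]
    norm_num

lemma qc_ge (x : F) : -1 ≤ quadraticChar F x := by
  rcases eq_or_ne x 0 with h | h
  · rw [h, quadraticChar_zero]
    norm_num
  · rcases quadraticChar_dichotomy h with h1 | h1 <;> rw [h1]
    norm_num

lemma sq_of_qc {x : F} (h : quadraticChar F x ≠ -1) : ∃ y, y ^ 2 = x := by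
  rcases eq_or_ne x 0 with h0 | h0
  · exact ⟨0, by rw [h0]; ring⟩
  · rcases quadraticChar_dichotomy h0 with h1 | h1
    · obtain ⟨y, hy⟩ := (quadraticChar_one_iff_isSquare h0).1 h1
      exact ⟨y, by rw [hy]; ring⟩
    · exact absurd h1 h

/-- two quadratic polynomials of `x²` which are simultaneously squares -/
lemma both (hF : ringChar F ≠ 2) (a b c d : F) (ha : a ≠ 0) (hb : b ≠ 0) (hc : c ≠ 0) (hd : d ≠ 0)
    (x0 : F) (hcd : quadraticChar F ((a * x0 ^ 2 + c) * (b * x0 ^ 2 + d)) = 1) (hb1 : quadraticChar F b = -1) :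
    ∃ x y z : F, y ^ 2 = a * x ^ 2 + c ∧ z ^ 2 = b * x ^ 2 + d := by
  by_contra hcon
  push Not at hcon
  have h1 : ∀ x : F, (1 + quadraticChar F (a * x ^ 2 + c)) * (1 + quadraticChar F (b * x ^ 2 + d)) = 0 := by
    intro x
    by_contra h
    have h2 : quadraticChar F (a * x ^ 2 + c) ≠ -1 := by
      intro h3
      rw [h3] at h
      simp at h
    have h3 : quadraticChar F (b * x ^ 2 + d) ≠ -1 := by
      intro h3
      rw [h3] at h
      simp at h
    obtain ⟨y, hy⟩ := sq_of_qc h2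
    obtain ⟨z, hz⟩ := sq_of_qc h3
    exact hcon x y z hy hz
  have h2 : ∑ x : F, (1 + quadraticChar F (a * x ^ 2 + c)) * (1 + quadraticChar F (b * x ^ 2 + d)) = 0 :=
    Finset.sum_eq_zero fun x _ => h1 x
  have h3 : ∑ x : F, (1 + quadraticChar F (a * x ^ 2 + c)) * (1 + quadraticChar F (b * x ^ 2 + d)) =
      (Fintype.card F : ℤ) + ∑ x : F, quadraticChar F (a * x ^ 2 + c) + ∑ x : F, quadraticChar F (b * x ^ 2 + d) +
        ∑ x : F, quadraticChar F ((a * x ^ 2 + c) * (b * x ^ 2 + d)) := by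
    have e1 : (Fintype.card F : ℤ) = ∑ _x : F, (1 : ℤ) := by simp
    rw [e1, ← Finset.sum_add_distrib, ← Finset.sum_add_distrib, ← Finset.sum_add_distrib]
    refine Finset.sum_congr rfl fun x _ => ?_
    rw [map_mul]
    ring
  have h4 : 2 - (Fintype.card F : ℤ) ≤ ∑ x : F, quadraticChar F ((a * x ^ 2 + c) * (b * x ^ 2 + d)) := by
    rw [← Finset.add_sum_erase _ _ (mem_univ x0)]
    have e2 : -((Fintype.card F : ℤ) - 1) ≤ ∑ x ∈ univ.erase x0, quadraticChar F ((a * x ^ 2 + c) * (b * x ^ 2 + d)) := by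
      have e3 : ∑ _x ∈ univ.erase x0, (-1 : ℤ) = -((Fintype.card F : ℤ) - 1) := by
        rw [Finset.sum_const, card_erase_of_mem (mem_univ _), card_univ]
        have := Fintype.card_pos (α := F)
        rw [nsmul_eq_mul, Nat.cast_sub this]
        push_cast
        ring
      rw [← e3]
      exact Finset.sum_le_sum fun x _ => qc_ge _
    rw [hcd]
    linarith
  rw [sum_quad hF a c ha hc, sum_quad hF b d hb hd, hb1] at h3
  have h5 := qc_le a
  linarith

/-- the choice of the slope -/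
lemma slope (hF : ringChar F ≠ 2) (hcard : 7 ≤ Fintype.card F) :
    ∃ r : F, quadraticChar F (r ^ 2 - 2) = -1 ∧ 1 - 2 * r ^ 2 ≠ 0 := by
  have h2 : (2 : F) ≠ 0 := Ring.two_ne_zero hF
  by_contra hcon
  push Not at hcon
  have h1 := sum_sq_add hF (-2 : F) (neg_ne_zero.2 h2)
  set Z : Finset F := univ.filter (fun r => 1 - 2 * r ^ 2 = 0) with hZ
  set Z' : Finset F := univ.filter (fun r => r ^ 2 = 2) with hZ'
  have c1 : ∀ t : F, (univ.filter (fun r : F => r ^ 2 = t)).card ≤ 2 := by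
    intro t
    have := quadraticChar_card_sqrts hF t
    have h3 := qc_le t
    have h4 : ((univ.filter (fun r : F => r ^ 2 = t)).card : ℤ) ≤ 2 := by
      have h5 : (univ.filter (fun r : F => r ^ 2 = t)) = {x : F | x ^ 2 = t}.toFinset := by
        ext y
        simp
      rw [h5, this]
      linarith
    exact_mod_cast h4
  have hZc : Z.card ≤ 2 := by
    refine le_trans (card_le_card ?_) (c1 (1 / 2))
    intro r hr
    rw [hZ, mem_filter] at hr
    rw [mem_filter]
    refine ⟨mem_univ _, ?_⟩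
    field_simp
    linear_combination -hr.2
  have hZc' : Z'.card ≤ 2 := c1 2
  have h3 : ∀ r : F, quadraticChar F (r ^ 2 + -2) ≥ 1 - (if r ∈ Z then 2 else 0) - (if r ∈ Z' then 1 else 0) := by
    intro r
    by_cases hr' : r ∈ Z'
    · rw [if_pos hr']
      have : r ^ 2 = 2 := (mem_filter.1 hr').2
      rw [this, add_neg_cancel, quadraticChar_zero]
      split_ifs <;> norm_num
    · rw [if_neg hr']
      have hne : r ^ 2 + -2 ≠ 0 := by
        intro h
        apply hr'
        rw [hZ', mem_filter]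
        exact ⟨mem_univ _, by linear_combination h⟩
      by_cases hr : r ∈ Z
      · rw [if_pos hr]
        have := qc_ge (r ^ 2 + -2)
        linarith
      · rw [if_neg hr]
        rcases quadraticChar_dichotomy hne with h4 | h4
        · rw [h4]
          norm_num
        · exfalso
          apply hr
          rw [hZ, mem_filter]
          exact ⟨mem_univ _, hcon r (by rw [sub_eq_add_neg]; exact h4)⟩
  have h4 : ∑ r : F, (1 - (if r ∈ Z then (2 : ℤ) else 0) - (if r ∈ Z' then (1 : ℤ) else 0)) ≤ -1 := by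
    rw [← h1]
    exact Finset.sum_le_sum fun r _ => h3 r
  rw [Finset.sum_sub_distrib, Finset.sum_sub_distrib] at h4
  simp only [Finset.sum_ite_mem, Finset.univ_inter, Finset.sum_const, card_univ, nsmul_eq_mul, mul_one] at h4
  have h5 : (Z.card : ℤ) ≤ 2 := by exact_mod_cast hZc
  have h6 : (Z'.card : ℤ) ≤ 2 := by exact_mod_cast hZc'
  have h7 : (7 : ℤ) ≤ Fintype.card F := by exact_mod_cast hcard
  linarith

omit [DecidableEq F] in
/-- every value is attained by `2 u² + y²` -/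
lemma bin (hF : ringChar F ≠ 2) (r : F) : ∃ u y : F, 2 * u ^ 2 + y ^ 2 = r := by
  have h2 : (2 : F) ≠ 0 := Ring.two_ne_zero hF
  have hc : Fintype.card F % 2 = 1 := FiniteField.odd_card_of_char_ne_two hF
  obtain ⟨u, y, h⟩ := FiniteField.exists_root_sum_quadratic (R := F)
    (f := Polynomial.C 2 * Polynomial.X ^ 2) (g := Polynomial.X ^ 2 - Polynomial.C r)
    (by rw [Polynomial.degree_C_mul_X_pow _ h2]; rfl)
    (by rw [Polynomial.degree_X_pow_sub_C (by norm_num)]; rfl) hc
  simp only [Polynomial.eval_mul, Polynomial.eval_C, Polynomial.eval_pow, Polynomial.eval_X, Polynomial.eval_sub] at h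
  exact ⟨u, y, by linear_combination h⟩

/-- **every pair of values is attained**, in a field with at least `7` elements -/
theorem loc7 (hF : ringChar F ≠ 2) (hcard : 7 ≤ Fintype.card F) (n b : F) :
    ∃ x y z w : F, ¬ (x = 0 ∧ y = 0 ∧ z = 0 ∧ w = 0) ∧ x ^ 2 + y ^ 2 + z ^ 2 + w ^ 2 = n ∧
      x ^ 2 + 3 * y ^ 2 + 5 * z ^ 2 + 7 * w ^ 2 = b := by
  have h2 : (2 : F) ≠ 0 := Ring.two_ne_zero hF
  by_cases h0 : n = 0 ∧ b = 0
  · obtain ⟨hn, hb⟩ := h0
    have hm2 : (-2 : F) ≠ 0 := neg_ne_zero.2 h2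
    rcases quadraticChar_dichotomy hm2 with h1 | h1
    · obtain ⟨s, hs⟩ := (quadraticChar_one_iff_isSquare hm2).1 h1
      refine ⟨1, s, 1, 0, fun h => one_ne_zero h.1, ?_, ?_⟩
      · rw [hn]
        linear_combination -hs
      · rw [hb]
        linear_combination -3 * hs
    · obtain ⟨x, y, z, h3, h4⟩ := both hF 1 (-2) (-2) 1 one_ne_zero hm2 hm2 one_ne_zero 1 (by
        have : ((1 : F) * 1 ^ 2 + -2) * (-2 * 1 ^ 2 + 1) = 1 := by ring
        rw [this, map_one]) h1
      refine ⟨x, z, y, 1, fun h => one_ne_zero h.2.2.2, ?_, ?_⟩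
      · rw [hn]
        linear_combination h3 + h4
      · rw [hb]
        linear_combination 5 * h3 + 3 * h4
  have hnz : ∀ x y z w : F, x ^ 2 + y ^ 2 + z ^ 2 + w ^ 2 = n → x ^ 2 + 3 * y ^ 2 + 5 * z ^ 2 + 7 * w ^ 2 = b →
      ¬ (x = 0 ∧ y = 0 ∧ z = 0 ∧ w = 0) := by
    rintro x y z w e1 e2 ⟨hx, hy, hz, hw⟩
    apply h0
    rw [hx, hy, hz, hw] at e1 e2
    exact ⟨by rw [← e1]; ring, by rw [← e2]; ring⟩
  by_cases hα : quadraticChar F (b - 3 * n) = -1
  swap
  · obtain ⟨s, hs⟩ := sq_of_qc hα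
    obtain ⟨u, y, hu⟩ := bin hF (n - (s / 2) ^ 2)
    have e1 : u ^ 2 + y ^ 2 + u ^ 2 + (s / 2) ^ 2 = n := by linear_combination hu
    have e2 : u ^ 2 + 3 * y ^ 2 + 5 * u ^ 2 + 7 * (s / 2) ^ 2 = b := by
      have h4 : 4 * (s / 2) ^ 2 = s ^ 2 := by field_simp; ring
      linear_combination 3 * hu + h4 + hs
    exact ⟨u, y, u, s / 2, hnz _ _ _ _ e1 e2, e1, e2⟩
  by_cases hβ : quadraticChar F (5 * n - b) = -1
  swap
  · obtain ⟨s, hs⟩ := sq_of_qc hβ
    obtain ⟨u, y, hu⟩ := bin hF (n - (s / 2) ^ 2)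
    have e1 : (s / 2) ^ 2 + u ^ 2 + y ^ 2 + u ^ 2 = n := by linear_combination hu
    have e2 : (s / 2) ^ 2 + 3 * u ^ 2 + 5 * y ^ 2 + 7 * u ^ 2 = b := by
      have h4 : 4 * (s / 2) ^ 2 = s ^ 2 := by field_simp; ring
      linear_combination 5 * hu - h4 - hs
    exact ⟨s / 2, u, y, u, hnz _ _ _ _ e1 e2, e1, e2⟩
  obtain ⟨r, hr1, hr2⟩ := slope hF hcard
  have hα0 : b - 3 * n ≠ 0 := by
    intro h
    rw [h, quadraticChar_zero] at hα
    norm_num at hα
  have hβ0 : 5 * n - b ≠ 0 := by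
    intro h
    rw [h, quadraticChar_zero] at hβ
    norm_num at hβ
  have hr0 : r ^ 2 - 2 ≠ 0 := by
    intro h
    rw [h, quadraticChar_zero] at hr1
    norm_num at hr1
  obtain ⟨x, y, z, h3, h4⟩ := both hF (1 - 2 * r ^ 2) (r ^ 2 - 2) ((b - 3 * n) / 2) ((5 * n - b) / 2) hr2 hr0
    (div_ne_zero hα0 h2) (div_ne_zero hβ0 h2) 0 (by
      have : ((1 - 2 * r ^ 2) * 0 ^ 2 + (b - 3 * n) / 2) * ((r ^ 2 - 2) * 0 ^ 2 + (5 * n - b) / 2) =
          ((b - 3 * n) * (5 * n - b)) * (2⁻¹) ^ 2 := by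
        field_simp
        ring
      rw [this, map_mul, quadraticChar_sq_one' (inv_ne_zero h2), mul_one, map_mul, hα, hβ]
      norm_num) hr1
  have e1 : x ^ 2 + z ^ 2 + y ^ 2 + (r * x) ^ 2 = n := by
    have h5 : (b - 3 * n) / 2 + (5 * n - b) / 2 = n := by field_simp; ring
    linear_combination h3 + h4 + h5
  have e2 : x ^ 2 + 3 * z ^ 2 + 5 * y ^ 2 + 7 * (r * x) ^ 2 = b := by
    have h5 : 5 * ((b - 3 * n) / 2) + 3 * ((5 * n - b) / 2) = b := by field_simp; ring
    linear_combination 5 * h3 + 3 * h4 + h5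
  exact ⟨x, z, y, r * x, hnz _ _ _ _ e1 e2, e1, e2⟩

end field

set_option maxRecDepth 100000 in
lemma loc3 : ∀ n b : ZMod 3, ∃ x y z w : ZMod 3, ¬ (x = 0 ∧ y = 0 ∧ z = 0 ∧ w = 0) ∧
    x ^ 2 + y ^ 2 + z ^ 2 + w ^ 2 = n ∧ x ^ 2 + 3 * y ^ 2 + 5 * z ^ 2 + 7 * w ^ 2 = b := by
  decide

set_option maxRecDepth 100000 in
lemma loc5 : ∀ n b : ZMod 5, ∃ x y z w : ZMod 5, ¬ (x = 0 ∧ y = 0 ∧ z = 0 ∧ w = 0) ∧
    x ^ 2 + y ^ 2 + z ^ 2 + w ^ 2 = n ∧ x ^ 2 + 3 * y ^ 2 + 5 * z ^ 2 + 7 * w ^ 2 = b := by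
  decide

/-- **every pair of values is attained** modulo an odd prime -/
theorem loc (l : ℕ) [Fact l.Prime] (hl : l ≠ 2) (n b : ZMod l) :
    ∃ x y z w : ZMod l, ¬ (x = 0 ∧ y = 0 ∧ z = 0 ∧ w = 0) ∧ x ^ 2 + y ^ 2 + z ^ 2 + w ^ 2 = n ∧
      x ^ 2 + 3 * y ^ 2 + 5 * z ^ 2 + 7 * w ^ 2 = b := by
  have hlp : l.Prime := Fact.out
  by_cases h3 : l = 3
  · subst h3
    exact loc3 n b
  by_cases h5 : l = 5
  · subst h5
    exact loc5 n b
  have h7 : 7 ≤ l := by
    have := hlp.two_le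
    by_contra h
    have h6 : l = 4 ∨ l = 6 := by omega
    rcases h6 with h6 | h6 <;> rw [h6] at hlp <;> revert hlp <;> decide
  exact loc7 (by rw [ZMod.ringChar_zmod_n]; exact hl) (by rw [ZMod.card]; exact h7) n b

end Pool.Agent.Q20.FQ
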