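import Pool.Agent.Q46.IP.Tools
import Pool.Agent.Q48.FS.Main
import Pool.Agent.Q48.FS.Low
import Pool.Agent.Q20.FQ.Loc

set_option autoImplicit false

/-! # Isolated patterns of almost primes among the values of a quadratic form at the representations as sums of four squares -/

namespace Pool.Agent.Q20.FQ

open Finset Filter Polynomial
open Pool.Agent.W65.FS Pool.Agent.Q48.FS
open Pool.Agent.Q46.IP (gy GG cover gy_scale t1 t2 t3)
open Pool.Agent.Q46.SL (cb cb_mono cb_add cb_X cb_C)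

/-- local solvability with integers in `[0, l)` -/
lemma loc_int (n : ℕ) (l : ℕ) (hl : l.Prime) (hl2 : l ≠ 2) (b : ℤ) : ∃ c ∈ Gl n l, (l : ℤ) ∣ pf c - b := by
  have : Fact l.Prime := ⟨hl⟩
  obtain ⟨x, y, z, w, h0, h1, h2⟩ := loc l hl2 (n : ZMod l) (b : ZMod l)
  refine ⟨fun i => ((![x, y, z, w] i).val : ℤ), ?_, ?_⟩
  · rw [mem_Gl]
    refine ⟨fun i => ⟨by positivity, ?_⟩, ?_, ?_⟩
    · have := ZMod.val_lt (![x, y, z, w] i)
      exact_mod_cast this
    · rw [← ZMod.intCast_zmod_eq_zero_iff_dvd, Fin.sum_univ_four]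
      push_cast
      simp only [ZMod.natCast_zmod_val]
      show x ^ 2 + y ^ 2 + z ^ 2 + w ^ 2 - (n : ZMod l) = 0
      rw [h1, sub_self]
    · by_contra h
      push Not at h
      apply h0
      have h3 : ∀ i, ![x, y, z, w] i = 0 := by
        intro i
        have := (ZMod.intCast_zmod_eq_zero_iff_dvd _ l).2 (h i)
        push_cast at this
        rwa [ZMod.natCast_zmod_val] at this
      exact ⟨h3 0, h3 1, h3 2, h3 3⟩
  · rw [← ZMod.intCast_zmod_eq_zero_iff_dvd]
    unfold pf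
    push_cast
    simp only [ZMod.natCast_zmod_val]
    show x ^ 2 + 3 * y ^ 2 + 5 * z ^ 2 + 7 * w ^ 2 - (b : ZMod l) = 0
    rw [h2, sub_self]

/-- the Chinese remainder theorem for vectors -/
lemma crt_vec (S : Finset ℕ) (hS : ∀ q ∈ S, q.Prime) (u : ℕ → Fin 4 → ℤ) :
    ∃ v : Fin 4 → ℤ, ∀ q ∈ S, ∀ i, (q : ℤ) ∣ v i - u q i := by
  have hpair : Set.Pairwise (S : Set ℕ) (Function.onFun Nat.Coprime (fun q : ℕ => q)) := by
    intro p hp q hq hpq
    exact (Nat.coprime_primes (hS p hp) (hS q hq)).2 hpq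
  have h1 : ∀ i : Fin 4, ∃ k : ℕ, ∀ q ∈ S, k ≡ (u q i % q).toNat [MOD q] := by
    intro i
    exact ⟨_, (Nat.chineseRemainderOfFinset (fun q => (u q i % q).toNat) (fun q => q) S
      (fun q hq => (hS q hq).ne_zero) hpair).2⟩
  choose k hk using h1
  refine ⟨fun i => (k i : ℤ), fun q hq i => ?_⟩
  have hq0 : (0 : ℤ) < q := by exact_mod_cast (hS q hq).pos
  have h2 := (Int.natCast_modEq_iff.2 (hk i q hq)).symm.dvd
  rw [Int.toNat_of_nonneg (Int.emod_nonneg _ hq0.ne')] at h2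
  have h3 := Int.dvd_self_sub_emod (x := u q i) (m := (q : ℤ))
  have h4 := dvd_sub h2 h3
  have e : (k i : ℤ) - u q i % q - (u q i - u q i % q) = k i - u q i := by ring
  rwa [e] at h4

open Classical in
/-- **isolated patterns** -/
theorem iso (k : ℕ) (hk : 1 ≤ k) : ∃ κ : ℝ, 0 < κ ∧ ∃ δ : ℝ, 0 < δ ∧ ∃ n₀ : ℕ, ∀ n : ℕ, Odd n → n₀ ≤ n →
    ∀ t : Fin k → ℤ, (∀ j, Even (t j) ∧ |(t j : ℝ)| ≤ κ * GG n) →
    (∀ q : ℕ, q.Prime → ∃ a : ℤ, ∀ j, ¬ (q : ℤ) ∣ a + t j) →
    ∃ G : Finset (Fin 4 → ℤ), (n : ℝ) ^ (9 / 10 : ℝ) / 2 ≤ G.card ∧ ∀ X ∈ G, ∑ i, X i ^ 2 = n ∧ gc X = 1 ∧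
      (∀ j, ∀ q : ℕ, q.Prime → (q : ℤ) ∣ pf X + t j → (n : ℝ) ^ δ < q) ∧
      ∀ i : ℤ, |(i : ℝ)| ≤ κ * GG n → (∀ j, i ≠ t j) →
        ∃ q : ℕ, q.Prime ∧ (q : ℝ) ≤ Real.log n ∧ (q : ℤ) ∣ pf X + i := by
  obtain ⟨c, hc, hcov⟩ := cover k k 3
  obtain ⟨δ1, hδ1, n1, hf⟩ := fund (4 * k) (1 / 2) (by norm_num)
  obtain ⟨δ2, hδ2, n2, hfl⟩ := fund_lower (4 * k)
  obtain ⟨δ, hδ⟩ : ∃ δ : ℝ, δ = min δ1 δ2 := ⟨_, rfl⟩
  have hδ0 : 0 < δ := by rw [hδ]; positivity
  have hδ1' : δ ≤ δ1 := by rw [hδ]; exact min_le_left _ _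
  have hδ2' : δ ≤ δ2 := by rw [hδ]; exact min_le_right _ _
  obtain ⟨θ, hθ⟩ : ∃ θ : ℝ, θ = min (δ / 6) (1 / 10) := ⟨_, rfl⟩
  have hθ0 : 0 < θ := by rw [hθ]; positivity
  have hθ1 : 6 * θ ≤ δ := by
    have : θ ≤ δ / 6 := by rw [hθ]; exact min_le_left _ _
    linarith
  have hθ2 : θ ≤ 1 / 10 := by rw [hθ]; exact min_le_right _ _
  refine ⟨c * θ / 4, by positivity, δ, hδ0, ?_⟩
  have hlog : Tendsto (fun n : ℕ => Real.log (n : ℝ)) atTop atTop :=
    Real.tendsto_log_atTop.comp tendsto_natCast_atTop_atTop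
  have ev1 := hlog.eventually (gy_scale θ hθ0 (by linarith))
  have ev2 := ((tendsto_id.const_mul_atTop hθ0).comp hlog).eventually hcov
  have ev3 : ∀ᶠ L : ℝ in atTop, 1 + c * θ / 4 * gy L ≤ (θ * L) ^ 3 := by
    filter_upwards [eventually_ge_atTop (1 : ℝ), t1.eventually (eventually_ge_atTop (1 : ℝ)),
      t2.eventually (eventually_ge_atTop (1 : ℝ)), t3.eventually (eventually_ge_atTop (1 : ℝ)),
      Real.isLittleO_log_id_atTop.def (show (0 : ℝ) < 1 by norm_num), eventually_ge_atTop ((1 + c * θ / 4) / θ ^ 3)]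
      with L e1 e2 e3 e4 e5 e6
    have hL0 : 0 < L := by linarith
    simp only [id, Real.norm_eq_abs, one_mul] at e5
    rw [abs_of_nonneg (by linarith), abs_of_nonneg hL0.le] at e5
    have f1 : Real.log (Real.log L) ≤ Real.log L := by
      have := Real.log_le_sub_one_of_pos (show 0 < Real.log L by linarith)
      linarith
    have f2 : Real.log (Real.log (Real.log L)) ≤ Real.log (Real.log L) := by
      have := Real.log_le_sub_one_of_pos (show 0 < Real.log (Real.log L) by linarith)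
      linarith
    have hgy : gy L ≤ L ^ 2 := by
      unfold gy
      rw [div_le_iff₀ (by positivity)]
      have g1 : Real.log L * Real.log (Real.log (Real.log L)) ≤ L * (Real.log (Real.log L)) ^ 2 := by
        apply mul_le_mul e5 _ (by linarith) hL0.le
        nlinarith
      calc L * Real.log L * Real.log (Real.log (Real.log L)) = L * (Real.log L * Real.log (Real.log (Real.log L))) := by ring
        _ ≤ L * (L * (Real.log (Real.log L)) ^ 2) := mul_le_mul_of_nonneg_left g1 hL0.le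
        _ = L ^ 2 * (Real.log (Real.log L)) ^ 2 := by ring
    have h1 : c * θ / 4 * gy L ≤ c * θ / 4 * L ^ 2 := mul_le_mul_of_nonneg_left hgy (by positivity)
    have h2 : 1 + c * θ / 4 * L ^ 2 ≤ (1 + c * θ / 4) * L ^ 2 := by nlinarith [sq_nonneg (L - 1)]
    rw [div_le_iff₀ (by positivity)] at e6
    calc 1 + c * θ / 4 * gy L ≤ (1 + c * θ / 4) * L ^ 2 := by linarith
      _ ≤ (L * θ ^ 3) * L ^ 2 := mul_le_mul_of_nonneg_right e6 (by positivity)
      _ = (θ * L) ^ 3 := by ring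
  obtain ⟨n3, hn3⟩ := ((ev1.and (ev2.and (hlog.eventually ev3))).and
    (hlog.eventually (eventually_ge_atTop (1 : ℝ)))).exists_forall_of_atTop
  refine ⟨n1 + n2 + n3 + 100, ?_⟩
  intro n hn hn0 t ht hadm
  obtain ⟨⟨hsc, hcv, hy3⟩, hl1⟩ := hn3 n (by omega)
  have hn1 : (1 : ℝ) ≤ n := by exact_mod_cast hn.pos
  have hnr0 : (0 : ℝ) < n := by linarith
  have hκ : c * θ / 4 * gy (Real.log n) ≤ c * gy (θ * Real.log n) := by
    have := mul_le_mul_of_nonneg_left hsc hc.le
    linarith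
  have hGG : GG (n : ℝ) = gy (Real.log n) := rfl
  -- the covering
  obtain ⟨P, b, hP0, hPle, hPb, hPc⟩ := hcv (fun j => X + C (t j))
    (by
      have h1 : ∀ j : Fin k, (X + C (t j) : ℤ[X]).natDegree ≤ 1 := fun j => by compute_degree
      refine (sum_le_sum fun j _ => h1 j).trans ?_
      simp)
    (by
      intro q hq
      obtain ⟨a, ha⟩ := hadm q hq
      have hq0 : (0 : ℤ) < q := by exact_mod_cast hq.pos
      refine ⟨(a % q).toNat, ?_, fun j hd => ha j ?_⟩
      · have := Int.emod_lt_of_pos a hq0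
        have := Int.emod_nonneg a hq0.ne'
        omega
      · simp only [eval_add, eval_X, eval_C] at hd
        rw [Int.toNat_of_nonneg (Int.emod_nonneg _ hq0.ne')] at hd
        have h3 := Int.dvd_self_sub_emod (x := a) (m := (q : ℤ))
        have h4 := dvd_add h3 hd
        have e : a - a % q + (a % q + t j) = a + t j := by ring
        rwa [e] at h4)
    (by
      intro j
      have h1 := cb_add cb_X (cb_C (t j))
      refine cb_mono h1 ?_
      have h2 := (ht j).2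
      rw [hGG] at h2
      show 1 + |(t j : ℝ)| ≤ (θ * Real.log n) ^ 3
      linarith)
  -- the modulus
  set S : Finset ℕ := P.primeFactors.erase 2 with hS
  have hSp : ∀ q ∈ S, q.Prime ∧ q ∣ P ∧ q ≠ 2 := by
    intro q hq
    rw [hS, mem_erase, Nat.mem_primeFactors] at hq
    exact ⟨hq.2.1, hq.2.2.1, hq.1⟩
  set M : ℕ := ∏ q ∈ S, q with hM
  have hMP : M ∣ P := (prod_dvd_prod_of_subset _ _ _ (erase_subset _ _)).trans (Nat.prod_primeFactors_dvd P)
  have hMpos : 0 < M := prod_pos fun q hq => (hSp q hq).1.pos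
  have hMpf : M.primeFactors = S := by
    rw [hM]
    exact Nat.primeFactors_prod fun q hq => (hSp q hq).1
  have hMo : Odd M := by
    rw [← Nat.not_even_iff_odd]
    intro h
    have h1 : 2 ∈ M.primeFactors := Nat.mem_primeFactors.2 ⟨Nat.prime_two, h.two_dvd, hMpos.ne'⟩
    rw [hMpf, hS] at h1
    exact absurd rfl (ne_of_mem_erase h1)
  have hMs : Squarefree M := by
    rw [hM]
    apply Finset.squarefree_prod_of_pairwise_isCoprime
    · intro p hp q hq hpq
      exact (Nat.coprime_iff_isRelPrime.1 ((Nat.coprime_primes (hSp p hp).1 (hSp q hq).1).2 hpq))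
    · intro q hq
      exact (hSp q hq).1.squarefree
  have hdvdM : ∀ q : ℕ, q.Prime → (q ∣ M ↔ q ∈ S) := by
    intro q hq
    rw [← hMpf, Nat.mem_primeFactors]
    exact ⟨fun h => ⟨hq, h, hMpos.ne'⟩, fun h => h.2.1⟩
  have hMn : (M : ℝ) ≤ (n : ℝ) ^ δ := by
    have h1 : (M : ℝ) ≤ P := by exact_mod_cast Nat.le_of_dvd hP0 hMP
    refine h1.trans (hPle.trans ?_)
    rw [Real.rpow_def_of_pos hnr0]
    apply Real.exp_le_exp.2
    show 6 * (θ * Real.log n) ≤ Real.log n * δ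
    nlinarith
  -- the class
  have hloc : ∀ q : ℕ, ∃ u : Fin 4 → ℤ, q ∈ S → u ∈ Gl n q ∧ (q : ℤ) ∣ pf u - b := by
    intro q
    by_cases hq : q ∈ S
    · obtain ⟨u, h1, h2⟩ := loc_int n q (hSp q hq).1 (hSp q hq).2.2 b
      exact ⟨u, fun _ => ⟨h1, h2⟩⟩
    · exact ⟨0, fun h => absurd h hq⟩
  choose u hu using hloc
  obtain ⟨v, hv⟩ := crt_vec S (fun q hq => (hSp q hq).1) u
  have hvn : ∀ q ∈ S, (q : ℤ) ∣ (∑ i, v i ^ 2) - n := by
    intro q hq
    have h1 := ((mem_Gl n q (u q)).1 (hu q hq).1).2.1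
    have h2 : (q : ℤ) ∣ ∑ i, (v i ^ 2 - u q i ^ 2) := by
      apply dvd_sum
      intro i _
      have : v i ^ 2 - u q i ^ 2 = (v i - u q i) * (v i + u q i) := by ring
      rw [this]
      exact (hv q hq i).mul_right _
    rw [sum_sub_distrib] at h2
    have h3 := dvd_add h2 h1
    have e : ∑ i, v i ^ 2 - ∑ i, u q i ^ 2 + (∑ i, u q i ^ 2 - (n : ℤ)) = ∑ i, v i ^ 2 - n := by ring
    rwa [e] at h3
  have hvp : ∀ q ∈ S, (q : ℤ) ∣ pf v - b := by
    intro q hq
    have h1 := pf_congr q v (u q) (hv q hq)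
    have h2 := dvd_add h1 (hu q hq).2
    have e : pf v - pf (u q) + (pf (u q) - b) = pf v - b := by ring
    rwa [e] at h2
  have hgood : Good n M v := by
    refine ⟨?_, ?_⟩
    · rw [hM]
      push_cast
      apply Finset.prod_dvd_of_coprime
      · intro p hp q hq hpq
        exact Nat.isCoprime_iff_coprime.2 ((Nat.coprime_primes (hSp p hp).1 (hSp q hq).1).2 hpq)
      · intro q hq
        exact hvn q hq
    · intro l hl hlM
      have hlS := (hdvdM l hl).1 hlM
      obtain ⟨i, hi⟩ := ((mem_Gl n l (u l)).1 (hu l hlS).1).2.2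
      refine ⟨i, fun hd => hi ?_⟩
      have h2 := dvd_sub hd (hv l hlS i)
      have e : v i - (v i - u l i) = u l i := by ring
      rwa [e] at h2
  -- the excluded classes
  set B : ℕ → Finset (Fin 4 → ℤ) := fun l => (Gl n l).filter (fun c => ∃ j, (l : ℤ) ∣ pf c + t j) with hB
  have hBc : ∀ z : ℕ, ∀ l ∈ Pr M z, B l ⊆ Gl n l ∧ (B l).card ≤ 4 * k * l ^ 2 := by
    intro z l hl
    rw [mem_Pr] at hl
    refine ⟨filter_subset _ _, ?_⟩
    have h1 : B l ⊆ (univ : Finset (Fin k)).biUnion (fun j => (Gl n l).filter (fun c => (l : ℤ) ∣ pf c - (-t j))) := by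
      intro c hc
      rw [hB, mem_filter] at hc
      obtain ⟨h2, j, h3⟩ := hc
      rw [mem_biUnion]
      refine ⟨j, mem_univ _, ?_⟩
      rw [mem_filter]
      exact ⟨h2, by rwa [sub_neg_eq_add]⟩
    refine (card_le_card h1).trans (card_biUnion_le.trans ?_)
    refine (sum_le_sum fun j _ => bad_tau l hl.2.1 (by omega) n (-t j) _ (fun c hc => mem_filter.1 hc)).trans ?_
    rw [sum_const, card_univ, Fintype.card_fin, smul_eq_mul]
    apply le_of_eq
    ring
  have hBne : ∀ z : ℕ, ∀ l ∈ Pr M z, B l ≠ Gl n l := by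
    intro z l hl
    rw [mem_Pr] at hl
    obtain ⟨a, ha⟩ := hadm l hl.2.1
    obtain ⟨c, hc1, hc2⟩ := loc_int n l hl.2.1 (by omega) a
    intro h
    rw [← h, hB, mem_filter] at hc1
    obtain ⟨-, j, hj⟩ := hc1
    apply ha j
    have h2 := dvd_sub hj hc2
    have e : pf c + t j - (pf c - a) = a + t j := by ring
    rwa [e] at h2
  obtain ⟨z, hz⟩ : ∃ z : ℕ, z = ⌊(n : ℝ) ^ δ⌋₊ := ⟨_, rfl⟩
  have hzle : (z : ℝ) ≤ (n : ℝ) ^ δ := by
    rw [hz]
    exact Nat.floor_le (Real.rpow_nonneg hnr0.le _)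
  have hr1 : (n : ℝ) ^ δ ≤ (n : ℝ) ^ δ1 := Real.rpow_le_rpow_of_exponent_le hn1 hδ1'
  have hr2 : (n : ℝ) ^ δ ≤ (n : ℝ) ^ δ2 := Real.rpow_le_rpow_of_exponent_le hn1 hδ2'
  have g1 := (hf n M z hn (by omega) hMpos hMo hMs (hMn.trans hr1) (hzle.trans hr1) v hgood).2.2 B (by
    intro l hl
    have := hBc z l hl
    refine ⟨this.1, this.2.trans (le_of_eq (by ring))⟩)
  have g2 := hfl n M z hn (by omega) hMpos hMo hMs (hMn.trans hr2) (hzle.trans hr2) v hgood B (by
    intro l hl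
    have := hBc z l hl
    refine ⟨this.1, this.2.trans (le_of_eq (by ring))⟩) (hBne z)
  refine ⟨sift n M v z B, ?_, ?_⟩
  · have h1 := (abs_le.1 g1).1
    linarith
  intro X hX
  unfold sift at hX
  rw [mem_filter] at hX
  obtain ⟨hX1, hX2⟩ := hX
  unfold prc at hX1
  rw [mem_filter, mem_repsc] at hX1
  obtain ⟨⟨hXn, hXv⟩, hXg⟩ := hX1
  have hXb : ∀ q ∈ S, (q : ℤ) ∣ pf X - b := by
    intro q hq
    have hqM : (q : ℤ) ∣ M := Int.natCast_dvd_natCast.2 ((hdvdM q (hSp q hq).1).2 hq)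
    have h1 := pf_congr q X v (fun i => hqM.trans (hXv i))
    have h2 := dvd_add h1 (hvp q hq)
    have e : pf X - pf v + (pf v - b) = pf X - b := by ring
    rwa [e] at h2
  have hodd := pf_odd n hn X hXn
  refine ⟨hXn, hXg, ?_, ?_⟩
  · intro j q hq hd
    by_contra hcon
    push Not at hcon
    have hqz : q ≤ z := by rw [hz]; exact Nat.le_floor hcon
    by_cases hq2 : q = 2
    · subst hq2
      have h1 : (2 : ℤ) ∣ t j := (ht j).1.two_dvd
      apply hodd
      have h2 := dvd_sub hd h1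
      simpa using h2
    · have hq3 : 3 ≤ q := by
        have := hq.two_le
        omega
      by_cases hqS : q ∈ S
      · have h1 := hPb q hq (hSp q hqS).2.1 j
        apply h1
        simp only [eval_add, eval_X, eval_C]
        have h2 := dvd_sub hd (hXb q hqS)
        have e : pf X + t j - (pf X - b) = b + t j := by ring
        rwa [e] at h2
      · have hqP : q ∈ Pr M z := by
          rw [mem_Pr]
          exact ⟨⟨hq3, hqz⟩, hq, fun h => hqS ((hdvdM q hq).1 h)⟩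
        apply hX2 q hqP
        rw [hB, mem_filter]
        refine ⟨red_mem n q hq X hXn hXg, j, ?_⟩
        have h1 := pf_congr q X (red q X) (red_dvd q X)
        have h2 := dvd_sub hd h1
        have e : pf X + t j - (pf X - pf (red q X)) = pf (red q X) + t j := by ring
        rwa [e] at h2
  · intro i hi hij
    obtain ⟨q, hq, hqy, hqP, hqd⟩ := hPc i (by
      refine hi.trans ?_
      rw [hGG]
      exact hκ) (by
      intro j h
      apply hij j
      simp only [eval_add, eval_X, eval_C] at h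
      linarith)
    refine ⟨q, hq, ?_, ?_⟩
    · refine hqy.trans ?_
      show 10 * (θ * Real.log n) ≤ Real.log n
      nlinarith
    · by_cases hq2 : q = 2
      · subst hq2
        have h1 := hPb 2 hq hqP ⟨0, by omega⟩
        simp only [eval_add, eval_X, eval_C] at h1
        have h2 : (2 : ℤ) ∣ t ⟨0, by omega⟩ := (ht _).1.two_dvd
        have h3 : ((2 : ℕ) : ℤ) = 2 := rfl
        rw [h3] at h1 hqd ⊢
        omega
      · have hqS : q ∈ S := by
          rw [hS, mem_erase, Nat.mem_primeFactors]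
          exact ⟨hq2, hq, hqP, hP0.ne'⟩
        have h2 := dvd_add (hXb q hqS) hqd
        have e : pf X - b + (b + i) = pf X + i := by ring
        rwa [e] at h2

end Pool.Agent.Q20.FQ
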